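import Pool.Agent.Q155.BZ.Stm

set_option autoImplicit false

/-! Job BZ-4 of project BZ (helper155): continuity and exponential decay along rays. -/

open Complex Set Filter Asymptotics MeasureTheory Topology

namespace Pool.Agent.Q195.BZ

open Pool.Agent.Q155.BZ

lemma norm_one_sub_exp {z : ℂ} : 1 - Real.exp (-z.re) ≤ ‖1 - Complex.exp (-z)‖ := by
  have h1 := norm_sub_norm_le (1 : ℂ) (Complex.exp (-z))
  rw [norm_one, Complex.norm_exp, neg_re] at h1
  exact h1

lemma exp_lt_one {r : ℝ} (hr : 0 < r) : Real.exp (-r) < 1 := by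
  rw [Real.exp_lt_one_iff] 
  linarith

lemma one_sub_exp_ne {z : ℂ} (hz : 0 < z.re) : 1 - Complex.exp (-z) ≠ 0 := by
  intro h
  have h1 := norm_one_sub_exp (z := z)
  rw [h, norm_zero] at h1
  have := exp_lt_one hz
  linarith

lemma re_ux {u : ℂ} {x : ℝ} : (u * (x : ℂ)).re = u.re * x := by
  simp

lemma re_tz {θ : ℝ} {z : ℂ} : ((θ : ℂ) * z).re = θ * z.re := by
  simp

/-- the bound for `h` -/
lemma norm_h_le (a θ : ℝ) (hθ : 0 < θ) {z : ℂ} (hz : 0 < z.re) :
    ‖h a θ z‖ ≤ Real.exp (-(a * z.re)) /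
      ((1 - Real.exp (-z.re)) * (1 - Real.exp (-(θ * z.re)))) := by
  unfold h
  rw [norm_div, norm_mul, Complex.norm_exp]
  have e : (-((a : ℂ) * z)).re = -(a * z.re) := by simp
  rw [e]
  have h1 := norm_one_sub_exp (z := z)
  have h2 := norm_one_sub_exp (z := (θ : ℂ) * z)
  rw [re_tz] at h2
  have h3 : 0 < 1 - Real.exp (-z.re) := by have := exp_lt_one hz; linarith
  have h4 : 0 < 1 - Real.exp (-(θ * z.re)) := by
    have := exp_lt_one (mul_pos hθ hz); linarith
  exact div_le_div_of_nonneg_left (Real.exp_pos _).le (mul_pos h3 h4)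
    (mul_le_mul h1 h2 h4.le (norm_nonneg _))

lemma cont_h (a θ : ℝ) (hθ : 0 < θ) {u : ℂ} (hu : 0 < u.re) :
    ContinuousOn (fun x : ℝ => h a θ (u * (x : ℂ))) (Ioi 0) := by
  unfold h
  apply ContinuousOn.div
  · fun_prop
  · fun_prop
  · intro x hx
    have hx0 : 0 < (u * (x : ℂ)).re := by rw [re_ux]; exact mul_pos hu hx
    apply mul_ne_zero
    · exact one_sub_exp_ne hx0
    · apply one_sub_exp_ne
      rw [re_tz]
      exact mul_pos hθ hx0

lemma u_ne {u : ℂ} (hu : 0 < u.re) : u ≠ 0 := by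
  rintro rfl
  simp at hu

lemma cont_f (a θ : ℝ) (hθ : 0 < θ) {u : ℂ} (hu : 0 < u.re) :
    ContinuousOn (fun x : ℝ => f a θ (u * (x : ℂ))) (Ioi 0) := by
  unfold f
  apply ContinuousOn.sub (cont_h a θ hθ hu)
  have hne : ∀ x ∈ Ioi (0 : ℝ), u * (x : ℂ) ≠ 0 := by
    intro x hx
    have hx0 : (x : ℂ) ≠ 0 := by exact_mod_cast (ne_of_gt hx)
    exact mul_ne_zero (u_ne hu) hx0
  apply ContinuousOn.mul
  · apply ContinuousOn.add
    · apply ContinuousOn.div
      · fun_prop
      · fun_prop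
      · intro x hx
        exact pow_ne_zero 2 (hne x hx)
    · apply ContinuousOn.div
      · fun_prop
      · fun_prop
      · intro x hx
        exact hne x hx
  · fun_prop

/-- decay of `h` for `x ≥ 1` -/
lemma h_decay (a θ : ℝ) (hθ : 0 < θ) {u : ℂ} (hu : 0 < u.re) :
    ∃ D : ℝ, 0 < D ∧ ∀ x : ℝ, 1 ≤ x →
      ‖h a θ (u * (x : ℂ))‖ ≤ D * Real.exp (-(a * (u.re * x))) := by
  have h3 : 0 < 1 - Real.exp (-u.re) := by have := exp_lt_one hu; linarith
  have h4 : 0 < 1 - Real.exp (-(θ * u.re)) := by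
    have := exp_lt_one (mul_pos hθ hu); linarith
  refine ⟨((1 - Real.exp (-u.re)) * (1 - Real.exp (-(θ * u.re))))⁻¹, by positivity, ?_⟩
  intro x hx
  have hz : 0 < (u * (x : ℂ)).re := by rw [re_ux]; positivity
  refine (norm_h_le a θ hθ hz).trans ?_
  rw [re_ux, div_eq_mul_inv, mul_comm]
  apply mul_le_mul_of_nonneg_right _ (Real.exp_pos _).le
  apply inv_anti₀ (by positivity)
  have hx1 : u.re ≤ u.re * x := le_mul_of_one_le_right hu.le hx
  have h5 : Real.exp (-(u.re * x)) ≤ Real.exp (-u.re) := Real.exp_le_exp.mpr (by linarith)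
  have h6 : Real.exp (-(θ * (u.re * x))) ≤ Real.exp (-(θ * u.re)) := by
    apply Real.exp_le_exp.mpr
    have := mul_le_mul_of_nonneg_left hx1 hθ.le
    linarith
  exact mul_le_mul (by linarith) (by linarith) h4.le (by
    have : Real.exp (-(u.re * x)) ≤ Real.exp (-u.re) := h5
    linarith)

/-- `x ^ 2 exp (-(2 c x)) ≤ C exp (-(c x))` -/
lemma sq_exp {c : ℝ} (hc : 0 < c) {x : ℝ} (hx : 0 ≤ x) :
    x ^ 2 * Real.exp (-(2 * c * x)) ≤ 2 / c ^ 2 * Real.exp (-(c * x)) := by
  have h1 : (c * x) ^ 2 / 2 ≤ Real.exp (c * x) := by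
    have := Real.quadratic_le_exp_of_nonneg (by positivity : (0 : ℝ) ≤ c * x)
    have : 0 ≤ c * x := by positivity
    linarith
  have h2 : Real.exp (-(2 * c * x)) = Real.exp (-(c * x)) * Real.exp (-(c * x)) := by
    rw [← Real.exp_add]; congr 1; ring
  have h3 : Real.exp (c * x) * Real.exp (-(c * x)) = 1 := by
    rw [← Real.exp_add]; simp
  have h4 : 0 < Real.exp (-(c * x)) := Real.exp_pos _
  have h5 : x ^ 2 * Real.exp (-(c * x)) ≤ 2 / c ^ 2 := by
    rw [le_div_iff₀ (by positivity)]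
    have := mul_le_mul_of_nonneg_right h1 h4.le
    rw [h3] at this
    nlinarith
  rw [h2, ← mul_assoc]
  exact mul_le_mul_of_nonneg_right h5 h4.le

theorem far : S_FAR := by
  intro a θ ha hθ u hu
  refine ⟨cont_f a θ hθ hu, cont_h a θ hθ hu, ?_⟩
  obtain ⟨D, hD, hdec⟩ := h_decay a θ hθ hu
  set c : ℝ := min a 1 * u.re / 2 with hc
  have hm : 0 < min a 1 := lt_min ha one_pos
  have hc0 : 0 < c := by positivity
  have hca : 2 * c ≤ a * u.re := by
    have : min a 1 * u.re ≤ a * u.re := mul_le_mul_of_nonneg_right (min_le_left _ _) hu.le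
    rw [hc]; linarith
  have hc1 : 2 * c ≤ u.re := by
    have : min a 1 * u.re ≤ 1 * u.re := mul_le_mul_of_nonneg_right (min_le_right _ _) hu.le
    rw [hc]; linarith
  have hh : ∀ x : ℝ, 1 ≤ x → ‖h a θ (u * (x : ℂ))‖ ≤ D * Real.exp (-(2 * c * x)) := by
    intro x hx
    refine (hdec x hx).trans ?_
    apply mul_le_mul_of_nonneg_left _ hD.le
    apply Real.exp_le_exp.mpr
    have : 2 * c * x ≤ a * u.re * x := mul_le_mul_of_nonneg_right hca (by linarith)
    linarith
  have hexp : ∀ x : ℝ, 1 ≤ x → Real.exp (-(2 * c * x)) ≤ Real.exp (-(c * x)) := by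
    intro x hx
    apply Real.exp_le_exp.mpr
    have : 0 < c * x := by positivity
    linarith
  refine ⟨c, hc0, ?_, ?_, ?_⟩
  · have hu0 : 0 < ‖u‖ := norm_pos_iff.mpr (u_ne hu)
    apply IsBigO.of_bound (D + (|1 / θ| / ‖u‖ ^ 2 + |b1 a θ| / ‖u‖))
    filter_upwards [eventually_ge_atTop (1 : ℝ)] with x hx
    have hx0 : 0 < x := by linarith
    rw [Real.norm_of_nonneg (Real.exp_pos _).le, add_mul]
    unfold f
    refine (norm_sub_le _ _).trans (add_le_add ?_ ?_)
    · refine (hh x hx).trans ?_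
      exact mul_le_mul_of_nonneg_left (hexp x hx) hD.le
    · rw [norm_mul, Complex.norm_exp]
      have e1 : (-(u * (x : ℂ))).re = -(u.re * x) := by rw [neg_re, re_ux]
      rw [e1]
      apply mul_le_mul _ _ (Real.exp_pos _).le (by positivity)
      · refine (norm_add_le _ _).trans (add_le_add ?_ ?_)
        · rw [norm_div, norm_pow, norm_mul, Complex.norm_real, Complex.norm_real,
            Real.norm_eq_abs, Real.norm_of_nonneg hx0.le]
          apply div_le_div_of_nonneg_left (abs_nonneg _) (by positivity)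
          apply pow_le_pow_left₀ hu0.le
          exact le_mul_of_one_le_right hu0.le hx
        · rw [norm_div, norm_mul, Complex.norm_real, Complex.norm_real,
            Real.norm_eq_abs, Real.norm_of_nonneg hx0.le]
          apply div_le_div_of_nonneg_left (abs_nonneg _) hu0
          exact le_mul_of_one_le_right hu0.le hx
      · apply Real.exp_le_exp.mpr
        have : 2 * c * x ≤ u.re * x := mul_le_mul_of_nonneg_right hc1 hx0.le
        have : 0 < c * x := by positivity
        linarith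
  · apply IsBigO.of_bound D
    filter_upwards [eventually_ge_atTop (1 : ℝ)] with x hx
    rw [Real.norm_of_nonneg (Real.exp_pos _).le]
    refine (hh x hx).trans ?_
    exact mul_le_mul_of_nonneg_left (hexp x hx) hD.le
  · apply IsBigO.of_bound (D * (2 / c ^ 2))
    filter_upwards [eventually_ge_atTop (1 : ℝ)] with x hx
    have hx0 : 0 < x := by linarith
    rw [Real.norm_of_nonneg (Real.exp_pos _).le, norm_mul, norm_pow, Complex.norm_real,
      Real.norm_of_nonneg hx0.le]
    have h1 := mul_le_mul_of_nonneg_left (hh x hx) (by positivity : 0 ≤ x ^ 2)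
    refine h1.trans ?_
    have h2 := mul_le_mul_of_nonneg_left (sq_exp hc0 hx0.le) hD.le
    calc x ^ 2 * (D * Real.exp (-(2 * c * x))) = D * (x ^ 2 * Real.exp (-(2 * c * x))) := by ring
      _ ≤ D * (2 / c ^ 2 * Real.exp (-(c * x))) := h2
      _ = D * (2 / c ^ 2) * Real.exp (-(c * x)) := by ring

end Pool.Agent.Q195.BZ
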