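import Pool.Agent.Q155.BZ.Stm

set_option autoImplicit false

/-! Job BZ-7 of project BZ (helper155): sizes of the Gamma function. -/

open Complex Set Filter Asymptotics MeasureTheory Topology

namespace Pool.Agent.Q195.BZ

open Pool.Agent.Q155.BZ

lemma gam_sq {t : ℝ} (ht : 0 < t) :
    ‖Gamma (1 + (t : ℂ) * I)‖ ^ 2 = Real.pi * t / Real.sinh (Real.pi * t) := by
  have htI : (t : ℂ) * I ≠ 0 := mul_ne_zero (by exact_mod_cast ht.ne') I_ne_zero
  have h1 := Complex.Gamma_mul_Gamma_one_sub ((t : ℂ) * I)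
  have h2 : Gamma (1 + (t : ℂ) * I) = (t : ℂ) * I * Gamma ((t : ℂ) * I) := by
    rw [add_comm]; exact Complex.Gamma_add_one _ htI
  have h3 : ‖Gamma (1 - (t : ℂ) * I)‖ = ‖Gamma (1 + (t : ℂ) * I)‖ := by
    have e : (1 - (t : ℂ) * I) = (starRingEnd ℂ) (1 + (t : ℂ) * I) := by
      simp [sub_eq_add_neg]
    rw [e, Complex.Gamma_conj, Complex.norm_conj]
  have h4 : ‖Gamma (1 + (t : ℂ) * I)‖ = t * ‖Gamma ((t : ℂ) * I)‖ := by
    rw [h2, norm_mul, norm_mul, norm_I, mul_one, Complex.norm_real, Real.norm_of_nonneg ht.le]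
  have h5 : Complex.sin ((Real.pi : ℂ) * ((t : ℂ) * I)) = (Real.sinh (Real.pi * t) : ℂ) * I := by
    rw [← mul_assoc, Complex.sin_mul_I]
    push_cast
    rfl
  have hs : 0 < Real.sinh (Real.pi * t) := Real.sinh_pos_iff.mpr (by positivity)
  have h6 : ‖Gamma ((t : ℂ) * I)‖ * ‖Gamma (1 + (t : ℂ) * I)‖ =
      Real.pi / Real.sinh (Real.pi * t) := by
    rw [← h3, ← norm_mul, h1, h5, norm_div, norm_mul, norm_I, mul_one, Complex.norm_real,
      Complex.norm_real, Real.norm_of_nonneg Real.pi_pos.le, Real.norm_of_nonneg hs.le]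
  calc ‖Gamma (1 + (t : ℂ) * I)‖ ^ 2
      = t * (‖Gamma ((t : ℂ) * I)‖ * ‖Gamma (1 + (t : ℂ) * I)‖) := by
        rw [pow_two]; nth_rewrite 1 [h4]; ring
    _ = Real.pi * t / Real.sinh (Real.pi * t) := by rw [h6]; ring

theorem gam : S_GAM := by
  refine ⟨4, fun t ht => ?_⟩
  have ht0 : 0 < t := by linarith
  have hpi := Real.pi_pos
  have htI : (t : ℂ) * I ≠ 0 := mul_ne_zero (by exact_mod_cast ht0.ne') I_ne_zero
  have hsq := gam_sq ht0
  have hsinh : Real.exp (Real.pi * t) / 4 ≤ Real.sinh (Real.pi * t) := by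
    rw [Real.sinh_eq]
    have h1 : Real.exp (-(Real.pi * t)) ≤ 1 := by
      rw [Real.exp_le_one_iff]
      have : 0 ≤ Real.pi * t := by positivity
      linarith
    have h2 : 2 ≤ Real.exp (Real.pi * t) := by
      have h3 : Real.pi * t + 1 ≤ Real.exp (Real.pi * t) := Real.add_one_le_exp _
      have h4 : 3 < Real.pi := Real.pi_gt_three
      nlinarith
    linarith
  have hb1 : ‖Gamma (1 + (t : ℂ) * I)‖ ≤ 4 * Real.sqrt t * Real.exp (-(Real.pi * t / 2)) := by
    have h0 : 0 ≤ 4 * Real.sqrt t * Real.exp (-(Real.pi * t / 2)) := by positivity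
    apply le_of_sq_le_sq _ h0
    rw [hsq, mul_pow, mul_pow, Real.sq_sqrt ht0.le, ← Real.exp_nat_mul]
    have e : ((2 : ℕ) : ℝ) * -(Real.pi * t / 2) = -(Real.pi * t) := by push_cast; ring
    rw [e, Real.exp_neg]
    have hE : 0 < Real.exp (Real.pi * t) := Real.exp_pos _
    have h7 : Real.pi * t / Real.sinh (Real.pi * t) ≤
        Real.pi * t / (Real.exp (Real.pi * t) / 4) := by
      apply div_le_div_of_nonneg_left (by positivity) (by positivity) hsinh
    refine h7.trans ?_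
    have e2 : Real.pi * t / (Real.exp (Real.pi * t) / 4) =
        4 * Real.pi * t * (Real.exp (Real.pi * t))⁻¹ := by
      field_simp
    rw [e2]
    apply mul_le_mul_of_nonneg_right _ (by positivity)
    have : Real.pi ≤ 4 := Real.pi_le_four
    nlinarith
  have h2 : Gamma (1 + (t : ℂ) * I) = (t : ℂ) * I * Gamma ((t : ℂ) * I) := by
    rw [add_comm]; exact Complex.Gamma_add_one _ htI
  have h4 : ‖Gamma (1 + (t : ℂ) * I)‖ = t * ‖Gamma ((t : ℂ) * I)‖ := by
    rw [h2, norm_mul, norm_mul, norm_I, mul_one, Complex.norm_real, Real.norm_of_nonneg ht0.le]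
  have hb2 : ‖Gamma ((t : ℂ) * I)‖ ≤ ‖Gamma (1 + (t : ℂ) * I)‖ := by
    rw [h4]
    exact le_mul_of_one_le_left (norm_nonneg _) ht
  have hne : (-1 + (t : ℂ) * I) ≠ 0 := by
    intro h
    have := congrArg Complex.im h
    simp at this
    linarith
  have h5 : Gamma ((t : ℂ) * I) = (-1 + (t : ℂ) * I) * Gamma (-1 + (t : ℂ) * I) := by
    have := Complex.Gamma_add_one _ hne
    rw [← this]
    congr 1
    ring
  have h6 : 1 ≤ ‖(-1 + (t : ℂ) * I)‖ := by
    have := Complex.abs_im_le_norm (-1 + (t : ℂ) * I)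
    simp only [add_im, neg_im, one_im, neg_zero, mul_im, ofReal_re, I_im, mul_one, ofReal_im,
      I_re, mul_zero, add_zero, zero_add] at this
    rw [abs_of_pos ht0] at this
    linarith
  have hb3 : ‖Gamma (-1 + (t : ℂ) * I)‖ ≤ ‖Gamma ((t : ℂ) * I)‖ := by
    rw [h5, norm_mul]
    exact le_mul_of_one_le_left (norm_nonneg _) h6
  exact ⟨hb1, hb2.trans hb1, hb3.trans (hb2.trans hb1)⟩

end Pool.Agent.Q195.BZ
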